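import Pool.Agent.helper25.CF.Num
import Pool.Agent.helper89.Exp.Step

set_option autoImplicit false

/-!
# The exponential bound with weights: the step and the base of the induction
-/

namespace Pool.Agent.helper25.CF

open MvPolynomial Pool.Agent.helper5.NBS Pool.Agent.helper89.Segre Pool.Agent.helper22.SC
  Pool.Agent.helper89.Exp

/-- the weighted bound at very general points -/
def NefV (N : ℕ) (r : ℝ) {h : ℕ} (w : Fin h → ℝ) (z : ℝ) : Prop :=
  ∃ T : Set (PtRing h), T.Countable ∧ (∀ Q ∈ T, Q ≠ 0) ∧ ∀ p : Fin h → Fin 2 → ℂ,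
    (∀ Q ∈ T, evP p Q ≠ 0) → ∀ F : R2, F ≠ 0 →
      N * z * (∑ i, w i * mult (p i) F) ^ 2 ≤ (z + 1) * r * (wdeg N F : ℝ) ^ 2

/-- the weights: `K` ones followed by `v` -/
def wv (K : ℕ) {L : ℕ} (v : Fin L → ℝ) : Fin (K + L) → ℝ := Fin.append (fun _ => 1) v

lemma wv_left (K : ℕ) {L : ℕ} (v : Fin L → ℝ) (i : Fin K) : wv K v (Fin.castAdd L i) = 1 := by
  simp [wv]

lemma wv_right (K : ℕ) {L : ℕ} (v : Fin L → ℝ) (i : Fin L) : wv K v (Fin.natAdd K i) = v i := by
  simp [wv]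

lemma sum_wv {K L : ℕ} (v : Fin L → ℝ) (f : Fin (K + L) → ℝ) : ∑ i, wv K v i * f i =
    ∑ i : Fin K, f (Fin.castAdd L i) + ∑ i : Fin L, v i * f (Fin.natAdd K i) := by
  rw [Fin.sum_univ_add]
  congr 1
  · apply Finset.sum_congr rfl
    intro i _
    rw [wv_left, one_mul]
  · apply Finset.sum_congr rfl
    intro i _
    rw [wv_right]

lemma sum_wv_sq (K : ℕ) {L : ℕ} (v : Fin L → ℝ) : ∑ i, wv K v i ^ 2 = K + ∑ i, v i ^ 2 := by
  rw [Fin.sum_univ_add]
  congr 1
  · rw [Finset.sum_congr rfl (g := fun _ => (1 : ℝ)) fun i _ => by rw [wv_left, one_pow]]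
    simp
  · apply Finset.sum_congr rfl
    intro i _
    rw [wv_right]

lemma wv_of_lt {K L : ℕ} (v : Fin L → ℝ) {i : Fin (K + L)} (hi : i.val < K) : wv K v i = 1 := by
  have : i = Fin.castAdd L ⟨i.val, hi⟩ := by ext; rfl
  rw [this, wv_left]

lemma wv_nonneg {K L : ℕ} {v : Fin L → ℝ} (h0 : ∀ i, 0 ≤ v i) (i : Fin (K + L)) :
    0 ≤ wv K v i := by
  induction i using Fin.addCases with
  | left i => rw [wv_left]; norm_num
  | right i => rw [wv_right]; exact h0 i

lemma wv_le {K L : ℕ} {v : Fin L → ℝ} (h4 : ∀ i, v i ≤ 4) (i : Fin (K + L)) :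
    wv K v i ≤ 4 := by
  induction i using Fin.addCases with
  | left i => rw [wv_left]; norm_num
  | right i => rw [wv_right]; exact h4 i

/-- the square root form -/
lemma sq_formR {N : ℕ} {r : ℝ} (hr : 0 ≤ r) {z : ℝ} (hz : 0 < z) {S D : ℝ}
    (hS : 0 ≤ S) (hD : 0 ≤ D) :
    N * z * S ^ 2 ≤ (z + 1) * r * D ^ 2 ↔ √(N * z) * S ≤ √((z + 1) * r) * D := by
  have h1 : (√(N * z) * S) ^ 2 = N * z * S ^ 2 := by
    rw [mul_pow, Real.sq_sqrt (by positivity)]
  have h2 : (√((z + 1) * r) * D) ^ 2 = (z + 1) * r * D ^ 2 := by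
    rw [mul_pow, Real.sq_sqrt (by positivity)]
  rw [← h1, ← h2]
  constructor
  · intro h
    exact le_of_sq_le_sq h (by positivity)
  · intro h
    exact pow_le_pow_left₀ (by positivity) h 2

/-- irreducible curves suffice -/
lemma all_of_irredR {N h : ℕ} {r : ℝ} (hr : 0 ≤ r) {w : Fin h → ℝ} (hw : ∀ i, 0 ≤ w i)
    {z : ℝ} (hz : 0 < z) (p : Fin h → Fin 2 → ℂ)
    (H : ∀ F : R2, Irreducible F →
      N * z * (∑ i, w i * mult (p i) F) ^ 2 ≤ (z + 1) * r * (wdeg N F : ℝ) ^ 2)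
    (F : R2) : F ≠ 0 →
      N * z * (∑ i, w i * mult (p i) F) ^ 2 ≤ (z + 1) * r * (wdeg N F : ℝ) ^ 2 := by
  have hnn : ∀ F : R2, 0 ≤ ∑ i, w i * mult (p i) F :=
    fun F => Finset.sum_nonneg fun i _ => mul_nonneg (hw i) (Nat.cast_nonneg _)
  induction F using WfDvdMonoid.induction_on_irreducible with
  | zero => intro h0; exact absurd rfl h0
  | unit u hu =>
    intro _
    have h0 : ∑ i, w i * mult (p i) u = 0 :=
      Finset.sum_eq_zero (fun i _ => by rw [mult_unit (p i) hu]; simp)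
    rw [h0]
    have h1 : (0 : ℝ) ≤ (z + 1) * r * (wdeg N u : ℝ) ^ 2 := by positivity
    have h2 : (N : ℝ) * z * 0 ^ 2 = 0 := by ring
    rw [h2]
    exact h1
  | mul a i ha hi ih =>
    intro _
    have h1 := (sq_formR hr hz (hnn a) (by positivity)).mp (ih ha)
    have h2 := (sq_formR hr hz (hnn i) (by positivity)).mp (H i hi)
    rw [sq_formR hr hz (hnn _) (by positivity)]
    have h3 : ∑ k, w k * mult (p k) (i * a) =
        ∑ k, w k * mult (p k) i + ∑ k, w k * mult (p k) a := by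
      rw [← Finset.sum_add_distrib]
      apply Finset.sum_congr rfl
      intro k _
      rw [mult_mul hi.ne_zero ha]
      push_cast
      ring
    rw [h3, wdeg_mul N hi.ne_zero ha]
    push_cast
    rw [mul_add, mul_add]
    linarith

/-- a curve violating the bound -/
lemma violatorR {N K L : ℕ} {r : ℝ} {v : Fin L → ℝ} (h0 : ∀ i, 0 ≤ v i) (h4 : ∀ i, v i ≤ 4)
    (hN : 0 < N) (hr : K + ∑ i, v i ^ 2 = r) (hK : 5 ≤ K)
    (hrK : r ≤ 4 * ((K : ℝ) - 1)) (hrN : 192 * (N : ℝ) ≤ r) {z : ℝ} (hz : 0 < z)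
    {p : Fin (K + L) → Fin 2 → ℂ} (hp : VGN hN p) {F : R2} (hF : Irreducible F)
    (viol : (z + 1) * r * (wdeg N F : ℝ) ^ 2 < N * z * (∑ i, wv K v i * mult (p i) F) ^ 2) :
    ∃ i0 ∈ clA K L, ∃ x : ℕ, 0 < x ∧ (∀ i ∈ clA K L, i ≠ i0 → mult (p i) F = x) ∧
      ((K : ℝ) - 1) * x < z + 1 ∧ ((K : ℝ) - 1) * (wdeg N F : ℝ) ^ 2 < N * z * (z + 1) := by
  have h := num_bound_real (clA K L) (wv K v) (wv_nonneg h0)
    (fun i hi => wv_of_lt v (mem_clA.mp hi)) (wv_le h4) N
    (wdeg N F) r hN (by rw [sum_wv_sq, hr]) (by rw [card_clA]; exact hK)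
    (by rw [card_clA]; exact hrK) hrN (Pool.Agent.helper7.SC.wdeg_pos hN hF) z hz
    (fun i => mult (p i) F) (fun i hi => by
      have := xuN bez hp hF i hi
      simp only [pow_two]
      exact this) (fun i k hik => by
      have h := swapIneqN bez hp hF hik
      rw [mul_sub] at h
      linarith) viol
  rw [card_clA] at h
  exact h

theorem baseR {N K L : ℕ} {r : ℝ} {v : Fin L → ℝ} (h0 : ∀ i, 0 ≤ v i) (h4 : ∀ i, v i ≤ 4)
    (hN : 0 < N) (hr : K + ∑ i, v i ^ 2 = r) (hK : 5 ≤ K)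
    (hrK : r ≤ 4 * ((K : ℝ) - 1)) (hrN : 192 * (N : ℝ) ≤ r) :
    NefV N r (wv K v) ((K : ℝ) - 2) := by
  have hK' : (5 : ℝ) ≤ K := by exact_mod_cast hK
  have hr0 : 0 ≤ r := by
    have : (0 : ℝ) ≤ N := Nat.cast_nonneg _
    linarith
  refine ⟨TN hN (K + L), TN_countable hN _, TN_ne hN _, fun p hp => ?_⟩
  have hV := VGN_of hN hp
  have hz : (0 : ℝ) < (K : ℝ) - 2 := by linarith
  apply all_of_irredR hr0 (wv_nonneg h0) hz
  intro F hF
  by_contra hcon
  push Not at hcon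
  obtain ⟨i0, _, x, hx, _, h1, _⟩ := violatorR h0 h4 hN hr hK hrK hrN hz hV hF hcon
  have hx1 : (1 : ℝ) ≤ x := by exact_mod_cast hx
  nlinarith

/-- the numerical part of the step -/
theorem num_stepR {N K : ℕ} {r z z' S D : ℝ} (hN : 0 < N) (hr0 : 0 ≤ r) (hK : 1 < K)
    (hz' : 0 < z') (hzz : z' < z) (hS : 0 ≤ S) (hD : 0 < D)
    (viol : (z + 1) * r * D ^ 2 < N * z * S ^ 2)
    (coll : N * z' * (S + 4) ^ 2 ≤ (z' + 1) * r * D ^ 2)
    (bd : ((K : ℝ) - 1) * D ^ 2 < N * z * (z + 1))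
    (hyp : (z + 1) * (z - z') ^ 2 * r ≤ 64 * ((K : ℝ) - 1) * z' ^ 2 * z) : False := by
  have hN' : (0 : ℝ) < N := by exact_mod_cast hN
  have hz : 0 < z := hz'.trans hzz
  have hK' : (0 : ℝ) < (K : ℝ) - 1 := by
    rw [sub_pos]
    exact_mod_cast hK
  -- `a ^ 2 = r D ^ 2 / N`
  set a : ℝ := √(r / N) * D with ha
  have ha0 : 0 ≤ a := by positivity
  have ha2 : N * a ^ 2 = r * D ^ 2 := by
    rw [ha, mul_pow, Real.sq_sqrt (by positivity)]
    field_simp
  have h1 : √(1 + 1 / z) * a < S := by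
    apply lt_of_pow_lt_pow_left₀ 2 hS
    rw [mul_pow, Real.sq_sqrt (by positivity)]
    have : (z + 1) * (N * a ^ 2) < N * z * S ^ 2 := by rw [ha2]; linarith
    have h2 : (1 + 1 / z) * a ^ 2 = (z + 1) * (N * a ^ 2) / (N * z) := by
      field_simp
    rw [h2, div_lt_iff₀ (by positivity)]
    linarith
  have h2 : S + 4 ≤ √(1 + 1 / z') * a := by
    apply le_of_sq_le_sq _ (by positivity)
    rw [mul_pow, Real.sq_sqrt (by positivity)]
    have : N * z' * (S + 4) ^ 2 ≤ (z' + 1) * (N * a ^ 2) := by rw [ha2]; linarith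
    have h2 : (1 + 1 / z') * a ^ 2 = (z' + 1) * (N * a ^ 2) / (N * z') := by
      field_simp
    rw [h2, le_div_iff₀ (by positivity)]
    linarith
  have h3 : √(1 + 1 / z') - √(1 + 1 / z) ≤ (1 / z' - 1 / z) / 2 := by
    have e1 : √(1 + 1 / z') ^ 2 = 1 + 1 / z' := Real.sq_sqrt (by positivity)
    have e2 : √(1 + 1 / z) ^ 2 = 1 + 1 / z := Real.sq_sqrt (by positivity)
    have e3 : 1 ≤ √(1 + 1 / z') := Real.one_le_sqrt.mpr (by
      have : 0 < 1 / z' := by positivity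
      linarith)
    have e4 : 1 ≤ √(1 + 1 / z) := Real.one_le_sqrt.mpr (by
      have : 0 < 1 / z := by positivity
      linarith)
    have e5 : 1 / z < 1 / z' := one_div_lt_one_div_of_lt hz' hzz
    have e6 : √(1 + 1 / z) ≤ √(1 + 1 / z') := Real.sqrt_le_sqrt (by linarith)
    nlinarith
  have h4 : 4 < (1 / z' - 1 / z) / 2 * a := by
    have := mul_le_mul_of_nonneg_right h3 ha0
    linarith
  have h5 : 8 * z' * z < (z - z') * a := by
    have : (1 / z' - 1 / z) / 2 * a = (z - z') * a / (2 * z' * z) := by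
      field_simp
    rw [this, lt_div_iff₀ (by positivity)] at h4
    linarith
  have h6 : (8 * z' * z) ^ 2 < ((z - z') * a) ^ 2 := pow_lt_pow_left₀ h5 (by positivity) (by norm_num)
  -- combine
  have h7 : N * (8 * z' * z) ^ 2 < (z - z') ^ 2 * (r * D ^ 2) := by
    rw [← ha2]
    have : N * (8 * z' * z) ^ 2 < N * ((z - z') * a) ^ 2 := mul_lt_mul_of_pos_left h6 hN'
    calc N * (8 * z' * z) ^ 2 < N * ((z - z') * a) ^ 2 := this
      _ = _ := by ring
  have h8 : ((K : ℝ) - 1) * (N * (8 * z' * z) ^ 2) < (z - z') ^ 2 * r * (((K : ℝ) - 1) * D ^ 2) := by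
    have := mul_lt_mul_of_pos_left h7 hK'
    calc _ < ((K : ℝ) - 1) * ((z - z') ^ 2 * (r * D ^ 2)) := this
      _ = _ := by ring
  have h9 : (z - z') ^ 2 * r * (((K : ℝ) - 1) * D ^ 2) ≤ (z - z') ^ 2 * r * (N * z * (z + 1)) :=
    mul_le_mul_of_nonneg_left bd.le (by positivity)
  have h10 : (z - z') ^ 2 * r * (N * z * (z + 1)) ≤ N * z * (64 * ((K : ℝ) - 1) * z' ^ 2 * z) := by
    have := mul_le_mul_of_nonneg_left hyp (by positivity : 0 ≤ N * z)
    linarith
  have h11 : ((K : ℝ) - 1) * (N * (8 * z' * z) ^ 2) = N * z * (64 * ((K : ℝ) - 1) * z' ^ 2 * z) := by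
    ring
  linarith

/-- one collision -/
theorem stepR {N K L : ℕ} {r : ℝ} {v : Fin L → ℝ} (h0 : ∀ i, 0 ≤ v i) (h4 : ∀ i, v i ≤ 4)
    (hN : 0 < N) (hK0 : 0 < K) (hr : (K : ℝ) + 16 + ∑ i, v i ^ 2 = r)
    (hrK : r + 1 ≤ 4 * ((K : ℝ) + 16 - 1)) (hrN : 192 * (N : ℝ) ≤ r) {z' : ℝ} (hz' : r / 5 ≤ z')
    (H : NefV N r (wv K (Fin.cons 4 v : Fin (L + 1) → ℝ)) z') :
    NefV N r (wv (K + 16) v) (5 * z') := by
  classical
  have hN' : (0 : ℝ) < N := by exact_mod_cast hN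
  have hr' : 0 < r := by linarith
  have hz'0 : 0 < z' := lt_of_lt_of_le (by positivity) hz'
  obtain ⟨T', hT', hT'0, hT'p⟩ := H
  refine ⟨TN hN (K + 16 + L), TN_countable hN _, TN_ne hN _, fun p hp => ?_⟩
  have hV := VGN_of hN hp
  have hz : (0 : ℝ) < 5 * z' := by linarith
  apply all_of_irredR hr'.le (wv_nonneg h0) hz
  intro F hF
  by_contra hcon
  push Not at hcon
  obtain ⟨i0, hi0, x, hx, hconst, _, hbd⟩ :=
    violatorR h0 h4 hN (by push_cast; exact hr) (by omega) (by push_cast; linarith)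
      hrN hz hV hF hcon
  -- the permuted multiplicities
  let i1 : Fin (K + 16 + L) := ⟨0, by omega⟩
  let σ : Equiv.Perm (Fin (K + 16 + L)) := Equiv.swap i0 i1
  have hi1 : i1 ∈ clA (K + 16) L := mem_clA.mpr (by simp [i1])
  have hσA : ∀ i, σ i ∈ clA (K + 16) L ↔ i ∈ clA (K + 16) L := by
    intro i
    by_cases h1 : i = i0
    · subst h1
      simp only [σ, Equiv.swap_apply_left]
      exact iff_of_true hi1 hi0
    by_cases h2 : i = i1
    · rw [h2]
      simp only [σ, Equiv.swap_apply_right]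
      exact iff_of_true hi0 hi1
    · simp only [σ, Equiv.swap_apply_of_ne_of_ne h1 h2]
  have hwσ : ∀ i, wv (K + 16) v (σ i) = wv (K + 16) v i := by
    intro i
    by_cases h1 : i = i0
    · subst h1
      simp only [σ, Equiv.swap_apply_left]
      rw [wv_of_lt v (mem_clA.mp hi1), wv_of_lt v (mem_clA.mp hi0)]
    by_cases h2 : i = i1
    · rw [h2]
      simp only [σ, Equiv.swap_apply_right]
      rw [wv_of_lt v (mem_clA.mp hi1), wv_of_lt v (mem_clA.mp hi0)]
    · simp only [σ, Equiv.swap_apply_of_ne_of_ne h1 h2]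
  set μ : Fin (K + 16 + L) → ℕ := fun i => mult (p i) F with hμ
  obtain ⟨G, hG, hG0⟩ := hV.perm (self_memN N p hF.ne_zero) hF.ne_zero σ
  obtain ⟨V, hv, hv0⟩ := hV.fam hG hG0
  have hvne : V ≠ 0 := by
    rintro rfl
    apply hv0
    rw [polyOf]
    apply Finset.sum_eq_zero
    intro k _
    simp
  have hmx : ∀ i : Fin (K + 16 + L), K ≤ i.val → i.val < K + 16 → (μ ∘ σ) i = x := by
    intro i h1 h2
    apply hconst
    · rw [hσA, mem_clA]
      exact h2
    · intro h3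
      have h4 : i = i1 := by
        have := congrArg σ h3
        simp only [σ, Equiv.swap_apply_left, Equiv.swap_apply_self] at this
        exact this
      have h5 : i.val = 0 := by rw [h4]
      omega
  -- collision
  let A : Finset (Fin (K + 16 + L)) :=
    Finset.univ.filter fun i => K ≤ i.val ∧ i.val < K + 16
  have hA : A.card = 16 := by
    have : A = Finset.univ.image
        (fun a : Fin 16 => (⟨K + a.val, by omega⟩ : Fin (K + 16 + L))) := by
      ext i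
      simp only [A, Finset.mem_filter, Finset.mem_univ, true_and, Finset.mem_image]
      constructor
      · rintro ⟨h1, h2⟩
        exact ⟨⟨i.val - K, by omega⟩, by ext; simp; omega⟩
      · rintro ⟨a, rfl⟩
        have := a.isLt
        simp
    rw [this, Finset.card_image_of_injective, Finset.card_univ, Fintype.card_fin]
    intro a b hab
    simp only [Fin.mk.injEq] at hab
    ext
    omega
  obtain ⟨Q, hQ0, hQ⟩ := collide16 hN hv hvne (pim K L) A hA ⟨K, by omega⟩ (by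
    intro i hi
    simp only [A, Finset.mem_filter, Finset.mem_univ, true_and] at hi
    ext
    simp only [pim]
    rw [if_neg (by omega), if_pos hi.2]) x hx (by
    intro i hi
    simp only [A, Finset.mem_filter, Finset.mem_univ, true_and] at hi
    exact (hmx i hi.1 hi.2).ge)
  obtain ⟨q0, hq0⟩ := Pool.Agent.helper7.SC.exists_avoid (T' ∪ {Q})
    (hT'.union (Set.countable_singleton Q)) (by
      rintro f (hf | rfl)
      · exact hT'0 f hf
      · exact hQ0)
  let q : Fin (K + (L + 1)) → Fin 2 → ℂ := fun i k => q0 (i, k)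
  have hqe : ∀ f : PtRing (K + (L + 1)), evP q f = eval q0 f := by
    intro f
    rfl
  obtain ⟨F', hF'0, hF'd, hF'm, hF'k⟩ := hQ q (by rw [hqe]; exact hq0 Q (Or.inr rfl))
  have hnef := hT'p q (fun f hf => by rw [hqe]; exact hq0 f (Or.inl hf)) F' hF'0
  -- the sums
  set D : ℝ := (wdeg N F : ℝ) with hD
  have hD0 : 0 < D := by
    rw [hD]
    exact_mod_cast Pool.Agent.helper7.SC.wdeg_pos hN hF
  set S : ℝ := ∑ i, wv (K + 16) v i * mult (p i) F with hS
  have hS0 : 0 ≤ S := Finset.sum_nonneg fun i _ => mul_nonneg (wv_nonneg h0 i) (Nat.cast_nonneg _)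
  have hS' : S + 4 ≤ ∑ i, wv K (Fin.cons 4 v : Fin (L + 1) → ℝ) i * mult (q i) F' := by
    have e1 : S = ∑ i, wv (K + 16) v i * ((μ ∘ σ) i : ℝ) := by
      rw [hS, ← Equiv.sum_comp σ]
      apply Finset.sum_congr rfl
      intro i _
      rw [hwσ]
      rfl
    rw [e1, sum_wv v (fun i => ((μ ∘ σ) i : ℝ)),
      sum_wv (Fin.cons 4 v : Fin (L + 1) → ℝ) (fun i => (mult (q i) F' : ℝ)),
      Fin.sum_univ_add,
      Fin.sum_univ_succ (fun i : Fin (L + 1) => (Fin.cons 4 v : Fin (L + 1) → ℝ) i *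
        (mult (q (Fin.natAdd K i)) F' : ℝ))]
    simp only [Fin.cons_zero, Fin.cons_succ]
    have e2 : ∀ i : Fin K, ((μ ∘ σ) (Fin.castAdd L (Fin.castAdd 16 i)) : ℝ) ≤
        (mult (q (Fin.castAdd (L + 1) i)) F' : ℝ) := by
      intro i
      have h1 := hF'm (Fin.castAdd L (Fin.castAdd 16 i))
      have h2 : pim K L (Fin.castAdd L (Fin.castAdd 16 i)) = Fin.castAdd (L + 1) i := by
        ext
        simp [pim]
      rw [h2] at h1
      exact_mod_cast h1
    have e3 : ∀ i : Fin 16, ((μ ∘ σ) (Fin.castAdd L (Fin.natAdd K i)) : ℝ) = x := by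
      intro i
      rw [hmx _ (by simp) (by simp)]
    have e4 : ∀ i : Fin L, ((μ ∘ σ) (Fin.natAdd (K + 16) i) : ℝ) ≤
        (mult (q (Fin.natAdd K i.succ)) F' : ℝ) := by
      intro i
      have h1 := hF'm (Fin.natAdd (K + 16) i)
      have h2 : pim K L (Fin.natAdd (K + 16) i) = Fin.natAdd K i.succ := by
        ext
        simp only [pim, Fin.val_natAdd, Fin.val_succ]
        rw [if_neg (by omega), if_neg (by omega)]
        omega
      rw [h2] at h1
      exact_mod_cast h1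
    have e5 : (4 * (x : ℝ) + 1) ≤ (mult (q (Fin.natAdd K (0 : Fin (L + 1)))) F' : ℝ) := by
      have h2 : (⟨K, by omega⟩ : Fin (K + (L + 1))) = Fin.natAdd K (0 : Fin (L + 1)) := by
        ext
        simp
      rw [h2] at hF'k
      exact_mod_cast hF'k
    have e6 := Finset.sum_le_sum (fun i (_ : i ∈ (Finset.univ : Finset (Fin K))) => e2 i)
    have e7 := Finset.sum_le_sum (fun i (_ : i ∈ (Finset.univ : Finset (Fin L))) =>
      mul_le_mul_of_nonneg_left (e4 i) (h0 i))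
    have e8 : ∑ i : Fin 16, ((μ ∘ σ) (Fin.castAdd L (Fin.natAdd K i)) : ℝ) = 16 * x := by
      rw [Finset.sum_congr rfl fun i _ => e3 i]
      simp
    rw [e8]
    linarith
  have hcoll : N * z' * (S + 4) ^ 2 ≤ (z' + 1) * r * D ^ 2 := by
    have e1 : (S + 4) ^ 2 ≤ (∑ i, wv K (Fin.cons 4 v : Fin (L + 1) → ℝ) i * mult (q i) F') ^ 2 :=
      pow_le_pow_left₀ (by linarith) hS' 2
    have e2 : (wdeg N F' : ℝ) ^ 2 ≤ D ^ 2 :=
      pow_le_pow_left₀ (by positivity) (by rw [hD]; exact_mod_cast hF'd) 2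
    calc N * z' * (S + 4) ^ 2
        ≤ N * z' * (∑ i, wv K (Fin.cons 4 v : Fin (L + 1) → ℝ) i * mult (q i) F') ^ 2 :=
          mul_le_mul_of_nonneg_left e1 (by positivity)
      _ ≤ (z' + 1) * r * (wdeg N F' : ℝ) ^ 2 := hnef
      _ ≤ (z' + 1) * r * D ^ 2 := mul_le_mul_of_nonneg_left e2 (by positivity)
  have hKr : (r : ℝ) + 1 ≤ 4 * (((K + 16 : ℕ) : ℝ) - 1) := by
    push_cast
    exact hrK
  have hbd' : (((K + 16 : ℕ) : ℝ) - 1) * D ^ 2 < N * (5 * z') * (5 * z' + 1) := hbd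
  refine num_stepR (K := K + 16) hN hr'.le (by omega) hz'0 (by linarith) hS0 hD0 hcon hcoll hbd' ?_
  have e1 : (5 * z' + 1) * r ≤ 20 * (((K + 16 : ℕ) : ℝ) - 1) * z' := by
    have e2 : (r : ℝ) ≤ 5 * z' := by linarith
    nlinarith
  have e3 : (5 * z' + 1) * (5 * z' - z') ^ 2 * r = 16 * z' ^ 2 * ((5 * z' + 1) * r) := by ring
  have e4 : 64 * (((K + 16 : ℕ) : ℝ) - 1) * z' ^ 2 * (5 * z') =
      16 * z' ^ 2 * (20 * (((K + 16 : ℕ) : ℝ) - 1) * z') := by ring
  rw [e3, e4]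
  exact mul_le_mul_of_nonneg_left e1 (by positivity)

end Pool.Agent.helper25.CF
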