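import Pool.Agent.helper25.CF.P2

set_option autoImplicit false

/-!
# The exponential bound with weights: arbitrary order of the points, consequences
-/

namespace Pool.Agent.helper25.CF

open MvPolynomial Pool.Agent.helper5.NBS Pool.Agent.helper89.Segre Pool.Agent.helper22.SC
  Pool.Agent.helper89.Exp

lemma exists_order {h : ℕ} (P : Fin h → Prop) [DecidablePred P] (a : ℕ)
    (ha : (Finset.univ.filter P).card = a) :
    ∃ b : ℕ, ∃ e : Fin (a + b) ≃ Fin h, (∀ i, P (e (Fin.castAdd b i))) ∧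
      ∀ i, ¬ P (e (Fin.natAdd a i)) := by
  classical
  have h1 : Fintype.card {i // P i} = a := by
    rw [Fintype.card_subtype]; exact ha
  let e1 : Fin a ≃ {i // P i} := (Fintype.equivFinOfCardEq h1).symm
  let e2 : Fin (Fintype.card {i // ¬ P i}) ≃ {i // ¬ P i} := (Fintype.equivFin _).symm
  refine ⟨Fintype.card {i // ¬ P i},
    finSumFinEquiv.symm.trans ((e1.sumCongr e2).trans (Equiv.sumCompl P)), ?_, ?_⟩
  · intro i
    rw [Equiv.trans_apply, finSumFinEquiv_symm_apply_castAdd, Equiv.trans_apply,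
      Equiv.sumCongr_apply, Sum.map_inl, Equiv.sumCompl_apply_inl]
    exact (e1 i).2
  · intro i
    rw [Equiv.trans_apply, finSumFinEquiv_symm_apply_natAdd, Equiv.trans_apply,
      Equiv.sumCongr_apply, Sum.map_inr, Equiv.sumCompl_apply_inr]
    exact (e2 i).2

/-- **The exponential bound with weights**, arbitrary order. At least `192` points have the maximal
weight `W`, the other weights have total square at most `U W ^ 2`. -/
theorem exp_weighted_order {h : ℕ} (w : Fin h → ℕ) (W J U a : ℕ) (hW : 0 < W)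
    (hw : ∀ i, w i ≤ W) (hwa : (Finset.univ.filter fun i => w i = W).card = a)
    (hU : ∑ i, w i ^ 2 ≤ (a + U) * W ^ 2) (ha : 192 ≤ a) (hJ : 64 * J + 4 + U ≤ 3 * a) :
    ∃ T : Set (PtRing h), T.Countable ∧ (∀ Q ∈ T, Q ≠ 0) ∧
      ∀ q : Fin h → Fin 2 → ℂ, (∀ Q ∈ T, evP q Q ≠ 0) →
        Function.Injective q ∧ ∀ F : R2, F ≠ 0 →
        5 ^ J * (((a - 16 * J : ℕ) : ℝ) - 2) * (∑ i, (w i : ℝ) * mult (q i) F) ^ 2 ≤
        (5 ^ J * (((a - 16 * J : ℕ) : ℝ) - 2) + 1) * (∑ i, (w i : ℝ) ^ 2) *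
          (wdeg 1 F : ℝ) ^ 2 := by
  classical
  obtain ⟨b, e, he1, he2⟩ := exists_order (fun i => w i = W) a hwa
  have happ : ∀ i, (Fin.append (fun _ => W) (fun i => w (e (Fin.natAdd a i))) :
      Fin (a + b) → ℕ) i = w (e i) := by
    intro i
    induction i using Fin.addCases with
    | left i => rw [Fin.append_left, he1]
    | right i => rw [Fin.append_right]
  have hsq : ∑ i, w i ^ 2 = a * W ^ 2 + ∑ i, w (e (Fin.natAdd a i)) ^ 2 := by
    rw [← Equiv.sum_comp e, Fin.sum_univ_add]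
    congr 1
    rw [Finset.sum_congr rfl (g := fun _ => W ^ 2) fun i _ => by rw [he1]]
    simp
  obtain ⟨T, hT, hT0, hTp⟩ := exp_weighted a b W J U (fun i => w (e (Fin.natAdd a i))) hW
    (fun i => hw _) (by
      have h1 : (a + U) * W ^ 2 = a * W ^ 2 + U * W ^ 2 := by ring
      rw [hsq, h1] at hU
      omega) ha hJ
  have hinj : Function.Injective (fun x : Fin (a + b) × Fin 2 => (e x.1, x.2)) := by
    rintro ⟨x, y⟩ ⟨x', y'⟩ hxy
    simp only [Prod.mk.injEq] at hxy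
    rw [e.injective hxy.1, hxy.2]
  have hev : ∀ (q : Fin h → Fin 2 → ℂ) (Q : PtRing (a + b)),
      evP q (rename (fun x : Fin (a + b) × Fin 2 => (e x.1, x.2)) Q) = evP (fun i => q (e i)) Q := by
    intro q Q
    rw [evP, evP, eval_rename]
    rfl
  refine ⟨(rename (fun x : Fin (a + b) × Fin 2 => (e x.1, x.2))) '' T, hT.image _, ?_, ?_⟩
  · rintro _ ⟨Q, hQ, rfl⟩ h0
    exact hT0 Q hQ (rename_injective _ hinj (by rw [h0, map_zero]))
  · intro q hq
    obtain ⟨h1, h2⟩ := hTp (fun i => q (e i)) (fun Q hQ => by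
      rw [← hev]
      exact hq _ ⟨Q, hQ, rfl⟩)
    refine ⟨fun i j hij => ?_, fun F hF => ?_⟩
    · have h3 := @h1 (e.symm i) (e.symm j) (by
        simp only [Equiv.apply_symm_apply]
        exact hij)
      exact e.symm.injective h3
    · have h3 := h2 F hF
      simp only [happ] at h3
      rw [Equiv.sum_comp e (fun i => (w i : ℝ) * mult (q i) F),
        Equiv.sum_comp e (fun i => (w i : ℝ) ^ 2)] at h3
      exact h3

/-- the value of `z` -/
lemma exp_le_z (a J : ℕ) (ha : 192 ≤ a) (hJ : 64 * J + 5 ≤ 3 * a) (hJ' : 3 * a ≤ 64 * J + 68) :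
    Real.exp (3 * a / 40) ≤ 5 ^ J * (((a - 16 * J : ℕ) : ℝ) - 2) := exp_le a J ha hJ hJ'

/-- `U = 1`, with the exponential function -/
theorem exp_weighted_one {h : ℕ} (w : Fin h → ℕ) (W a : ℕ) (hW : 0 < W)
    (hw : ∀ i, w i ≤ W) (hwa : (Finset.univ.filter fun i => w i = W).card = a)
    (hU : ∑ i, w i ^ 2 ≤ (a + 1) * W ^ 2) (ha : 192 ≤ a) :
    ∃ T : Set (PtRing h), T.Countable ∧ (∀ Q ∈ T, Q ≠ 0) ∧
      ∀ q : Fin h → Fin 2 → ℂ, (∀ Q ∈ T, evP q Q ≠ 0) →
        Function.Injective q ∧ ∀ F : R2, F ≠ 0 →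
        (∑ i, (w i : ℝ) * mult (q i) F) ^ 2 ≤
        (1 + Real.exp (-(3 * a / 40))) * (∑ i, (w i : ℝ) ^ 2) * (wdeg 1 F : ℝ) ^ 2 := by
  have hz := exp_le a ((3 * a - 5) / 64) ha (by omega) (by omega)
  obtain ⟨T, hT, hT0, hTp⟩ := exp_weighted_order w W ((3 * a - 5) / 64) 1 a hW hw hwa hU ha
    (by omega)
  set z : ℝ := 5 ^ ((3 * a - 5) / 64) * (((a - 16 * ((3 * a - 5) / 64) : ℕ) : ℝ) - 2) with hzdef
  have hz0 : 0 < z := lt_of_lt_of_le (Real.exp_pos _) hz
  refine ⟨T, hT, hT0, fun q hq => ⟨(hTp q hq).1, fun F hF => ?_⟩⟩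
  have h1 := (hTp q hq).2 F hF
  have h3 : Real.exp (-(3 * a / 40)) = 1 / Real.exp (3 * a / 40) := by
    rw [Real.exp_neg, one_div]
  have h4 : 1 / z ≤ Real.exp (-(3 * a / 40)) := by
    rw [h3]
    exact one_div_le_one_div_of_le (Real.exp_pos _) hz
  have h0 : 0 ≤ ∑ i, (w i : ℝ) ^ 2 := Finset.sum_nonneg fun i _ => sq_nonneg _
  have h5 : (∑ i, (w i : ℝ) * mult (q i) F) ^ 2 ≤
      (1 + 1 / z) * (∑ i, (w i : ℝ) ^ 2) * (wdeg 1 F : ℝ) ^ 2 := by
    have h6 : (1 + 1 / z) * (∑ i, (w i : ℝ) ^ 2) * (wdeg 1 F : ℝ) ^ 2 =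
        (z + 1) * (∑ i, (w i : ℝ) ^ 2) * (wdeg 1 F : ℝ) ^ 2 / z := by
      field_simp
    rw [h6, le_div_iff₀ hz0]
    linarith
  refine h5.trans ?_
  apply mul_le_mul_of_nonneg_right _ (by positivity)
  apply mul_le_mul_of_nonneg_right _ h0
  linarith

end Pool.Agent.helper25.CF
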