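import Pool.Agent.helper25.CF.Step
import Pool.Agent.helper89.Exp.Plane

set_option autoImplicit false

/-!
# The exponential bound with weights

`a ≥ 192` points of weight `W`, the others have weights at most `W` and total square at most
`U W ^ 2`. At very general points every plane curve of degree `D` satisfies
`z (∑ w i * mult i) ^ 2 ≤ (z + 1) (∑ w i ^ 2) D ^ 2` with `z` exponentially large in `a`.
-/

namespace Pool.Agent.helper25.CF

open MvPolynomial Pool.Agent.helper5.NBS Pool.Agent.helper89.Segre Pool.Agent.helper22.SC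
  Pool.Agent.helper89.Exp

/-- all collisions -/
theorem indR {N : ℕ} {r : ℝ} (hN : 0 < N) (hrN : 192 * (N : ℝ) ≤ r) (K0 : ℕ)
    (hK0 : r + 4 ≤ 4 * (K0 : ℝ)) :
    ∀ (i K L : ℕ) (v : Fin L → ℝ), (∀ l, 0 ≤ v l) → (∀ l, v l ≤ 4) → K = K0 + 16 * i →
      (K : ℝ) + ∑ l, v l ^ 2 = r → NefV N r (wv K v) (5 ^ i * ((K0 : ℝ) - 2)) := by
  have hN1 : (1 : ℝ) ≤ N := by exact_mod_cast hN
  have hr192 : (192 : ℝ) ≤ r := by linarith
  intro i
  induction i with
  | zero =>
    intro K L v h0 h4 hK hr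
    have hKK : K = K0 := by omega
    subst hKK
    rw [pow_zero, one_mul]
    have h5 : (5 : ℝ) ≤ K := by linarith
    exact baseR h0 h4 hN hr (by exact_mod_cast h5) (by linarith) hrN
  | succ i ih =>
    intro K L v h0 h4 hK hr
    obtain ⟨K', rfl⟩ : ∃ K', K = K' + 16 := ⟨K0 + 16 * i, by omega⟩
    have hK' : K' = K0 + 16 * i := by omega
    have hK'R : (K' : ℝ) = K0 + 16 * i := by rw [hK']; push_cast; ring
    have hi0 : (0 : ℝ) ≤ i := Nat.cast_nonneg _
    have h3 := ih K' (L + 1) (Fin.cons 4 v) (by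
      intro l
      refine Fin.cases ?_ (fun l => ?_) l
      · rw [Fin.cons_zero]; norm_num
      · rw [Fin.cons_succ]; exact h0 l) (by
      intro l
      refine Fin.cases ?_ (fun l => ?_) l
      · rw [Fin.cons_zero]
      · rw [Fin.cons_succ]; exact h4 l) hK' (by
      rw [Fin.sum_univ_succ]
      simp only [Fin.cons_zero, Fin.cons_succ]
      push_cast at hr
      linarith)
    have h5 := stepR h0 h4 hN (by
      have : (0 : ℝ) < K' := by rw [hK'R]; linarith
      exact_mod_cast this) (by push_cast at hr; exact hr) (by rw [hK'R]; linarith) hrN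
      (z' := 5 ^ i * ((K0 : ℝ) - 2)) (by
        have h5 : (1 : ℝ) ≤ 5 ^ i := one_le_pow₀ (by norm_num)
        have h6 : r / 5 ≤ (K0 : ℝ) - 2 := by linarith
        have h7 : (0 : ℝ) ≤ (K0 : ℝ) - 2 := by linarith
        nlinarith) h3
    have h8 : (5 : ℝ) ^ (i + 1) * ((K0 : ℝ) - 2) = 5 * (5 ^ i * ((K0 : ℝ) - 2)) := by ring
    rw [h8]
    exact h5

/-- **The exponential bound with weights.** The first `a` points have weight `W`, the last `b`
points have weights `u i ≤ W` with `∑ u i ^ 2 ≤ U W ^ 2`. -/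
theorem exp_weighted (a b W J U : ℕ) (u : Fin b → ℕ) (hW : 0 < W) (hu : ∀ i, u i ≤ W)
    (hU : ∑ i, u i ^ 2 ≤ U * W ^ 2) (ha : 192 ≤ a) (hJ : 64 * J + 4 + U ≤ 3 * a) :
    ∃ T : Set (PtRing (a + b)), T.Countable ∧ (∀ Q ∈ T, Q ≠ 0) ∧
      ∀ q : Fin (a + b) → Fin 2 → ℂ, (∀ Q ∈ T, evP q Q ≠ 0) →
        Function.Injective q ∧ ∀ F : R2, F ≠ 0 →
        5 ^ J * (((a - 16 * J : ℕ) : ℝ) - 2) *
          (∑ i, ((Fin.append (fun _ => W) u : Fin (a + b) → ℕ) i : ℝ) * mult (q i) F) ^ 2 ≤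
        (5 ^ J * (((a - 16 * J : ℕ) : ℝ) - 2) + 1) *
          (∑ i, ((Fin.append (fun _ => W) u : Fin (a + b) → ℕ) i : ℝ) ^ 2) *
          (wdeg 1 F : ℝ) ^ 2 := by
  have hWR : (0 : ℝ) < W := by exact_mod_cast hW
  set v : Fin b → ℝ := fun i => (u i : ℝ) / W with hv
  set r : ℝ := a + ∑ i, v i ^ 2 with hr
  have hv0 : ∀ i, 0 ≤ v i := fun i => by positivity
  have hv4 : ∀ i, v i ≤ 4 := fun i => by
    rw [hv]
    simp only
    rw [div_le_iff₀ hWR]
    have : (u i : ℝ) ≤ W := by exact_mod_cast hu i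
    linarith
  have hvU : ∑ i, v i ^ 2 ≤ U := by
    have h1 : ∑ i, v i ^ 2 = (∑ i, (u i : ℝ) ^ 2) / W ^ 2 := by
      rw [Finset.sum_div]
      apply Finset.sum_congr rfl
      intro i _
      rw [hv]
      simp only
      rw [div_pow]
    rw [h1, div_le_iff₀ (by positivity)]
    exact_mod_cast hU
  have hvs0 : 0 ≤ ∑ i, v i ^ 2 := Finset.sum_nonneg fun i _ => sq_nonneg _
  have ha' : (192 : ℝ) ≤ a := by exact_mod_cast ha
  have hJ' : (64 * J + 4 + U : ℝ) ≤ 3 * a := by exact_mod_cast hJ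
  have hcast : ((a - 16 * J : ℕ) : ℝ) = a - 16 * J := by
    rw [Nat.cast_sub (by omega)]
    push_cast
    ring
  have hind := indR (N := 1) (r := r) one_pos (by push_cast; linarith) (a - 16 * J)
    (by rw [hcast]; linarith) J a b v hv0 hv4 (by omega) rfl
  set z : ℝ := 5 ^ J * (((a - 16 * J : ℕ) : ℝ) - 2) with hz
  obtain ⟨T, hT, hT0, hTp⟩ := hind
  refine ⟨T ∪ TN one_pos (a + b), hT.union (TN_countable one_pos _), ?_, ?_⟩
  · rintro Q (hQ | hQ)
    · exact hT0 Q hQ
    · exact TN_ne one_pos _ Q hQ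
  · intro q hq
    refine ⟨(VGN_of one_pos (fun Q hQ => hq Q (Or.inr hQ))).inj, fun F hF => ?_⟩
    have h1 := hTp q (fun Q hQ => hq Q (Or.inl hQ)) F hF
    have hwt : ∀ i, ((Fin.append (fun _ => W) u : Fin (a + b) → ℕ) i : ℝ) = W * wv a v i := by
      intro i
      induction i using Fin.addCases with
      | left i => rw [Fin.append_left, wv_left, mul_one]
      | right i =>
        rw [Fin.append_right, wv_right, hv]
        simp only
        rw [mul_div_cancel₀ _ hWR.ne']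
    have h2 : ∑ i, ((Fin.append (fun _ => W) u : Fin (a + b) → ℕ) i : ℝ) * mult (q i) F =
        W * ∑ i, wv a v i * mult (q i) F := by
      rw [Finset.mul_sum]
      apply Finset.sum_congr rfl
      intro i _
      rw [hwt]
      ring
    have h3 : ∑ i, ((Fin.append (fun _ => W) u : Fin (a + b) → ℕ) i : ℝ) ^ 2 = W ^ 2 * r := by
      rw [hr, ← sum_wv_sq, Finset.mul_sum]
      apply Finset.sum_congr rfl
      intro i _
      rw [hwt]
      ring
    rw [h2, h3]
    rw [Nat.cast_one, one_mul] at h1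
    have h4 := mul_le_mul_of_nonneg_left h1 (sq_nonneg (W : ℝ))
    calc z * (W * ∑ i, wv a v i * mult (q i) F) ^ 2 =
        (W : ℝ) ^ 2 * (z * (∑ i, wv a v i * mult (q i) F) ^ 2) := by ring
      _ ≤ (W : ℝ) ^ 2 * ((z + 1) * r * (wdeg 1 F : ℝ) ^ 2) := h4
      _ = _ := by ring

end Pool.Agent.helper25.CF
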